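import Mathlib

/-!
# Automorphisms of a connected graph of degree at most two
-/

set_option autoImplicit false

namespace Pool.Agent.Work.MP_beb4a5_sp

open Relation

variable {M G : Type*} [Group G] [MulAction G M] {R : M → M → Prop}

theorem no_fix (symm : ∀ {a b}, R a b → R b a) (equi : ∀ (g : G) {a b}, R a b → R (g • a) (g • b))
    (deg : ∀ {a b c d}, R a b → R a c → R a d → b = c ∨ b = d ∨ c = d) {g : G} {a b : M}
    (hab : R a b) (hg : ∀ k : ℕ, 1 ≤ k → g ^ k • a ≠ a) : ∀ k : ℕ, 1 ≤ k → g ^ k • b ≠ b := by
  intro k hk hb
  have h1 : R b a := symm hab
  have h2 : R b (g ^ k • a) := by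
    have := equi (g ^ k) h1
    rwa [hb] at this
  have h3 : R b (g ^ k • (g ^ k • a)) := by
    have := equi (g ^ k) h2
    rwa [hb] at this
  rcases deg h1 h2 h3 with h | h | h
  · exact hg k hk h.symm
  · refine hg (k + k) (by omega) ?_
    rw [pow_add, mul_smul]
    exact h.symm
  · exact hg k hk (smul_left_cancel _ h.symm)

/-- a connected graph of degree at most two with an automorphism without periodic points -/
theorem orbit_bound (symm : ∀ {a b}, R a b → R b a)
    (equi : ∀ (g : G) {a b}, R a b → R (g • a) (g • b))
    (deg : ∀ {a b c d}, R a b → R a c → R a d → b = c ∨ b = d ∨ c = d)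
    (conn : ∀ a b, ReflTransGen R a b) (g : G) :
    ∀ (d : ℕ) (y : M), (∀ k : ℕ, 1 ≤ k → g ^ k • y ≠ y) → ∀ p : ℕ → M, p 0 = y → p d = g • y →
      (∀ i < d, R (p i) (p (i + 1))) →
      ∃ w : Fin d → M, ∀ z, ∃ (i : Fin d) (h : G), h • w i = z := by
  intro d
  induction d using Nat.strong_induction_on with
  | _ d ih =>
    intro y hy p p0 pd hp
    have hd : 1 ≤ d := by
      rcases Nat.eq_zero_or_pos d with h | h
      · subst h
        exact absurd (by rw [pow_one, ← pd, p0]) (hy 1 le_rfl)
      · exact h
    -- a smaller number suffices
    have lift : ∀ d' < d, (∃ w : Fin d' → M, ∀ z, ∃ (i : Fin d') (h : G), h • w i = z) →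
        ∃ w : Fin d → M, ∀ z, ∃ (i : Fin d) (h : G), h • w i = z := by
      rintro d' hd' ⟨w, hw⟩
      refine ⟨fun i => if h : (i : ℕ) < d' then w ⟨i, h⟩ else y, fun z => ?_⟩
      obtain ⟨i, h, hi⟩ := hw z
      refine ⟨⟨i, by omega⟩, h, ?_⟩
      simp only [Fin.is_lt, dite_true, Fin.eta]
      exact hi
    by_cases hbt : ∃ i, 1 ≤ i ∧ i < d ∧ p (i - 1) = p (i + 1)
    · obtain ⟨i, hi1, hid, hpi⟩ := hbt
      refine lift (d - 2) (by omega) (ih (d - 2) (by omega) y hy
        (fun j => if j < i then p j else p (j + 2)) ?_ ?_ ?_)
      · simp only [show 0 < i by omega, if_true, p0]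
      · by_cases h : d - 2 < i
        · have h1 : d - 2 = i - 1 := by omega
          simp only [h, if_true]
          rw [h1, hpi, ← pd]
          congr 1
          omega
        · simp only [h, if_false]
          rw [← pd]
          congr 1
          omega
      · intro j hj
        by_cases h : j + 1 < i
        · simp only [h, show j < i by omega, if_true]
          exact hp j (by omega)
        · by_cases h' : j < i
          · have h1 : j = i - 1 := by omega
            simp only [h, h', if_true, if_false]
            rw [h1, hpi]
            have := hp (i + 1) (by omega)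
            rwa [show i - 1 + 1 + 2 = i + 1 + 1 by omega]
          · simp only [h, h', if_false]
            have := hp (j + 2) (by omega)
            rwa [show j + 1 + 2 = j + 2 + 1 by omega]
    · push Not at hbt
      by_cases hcyc : 2 ≤ d ∧ p (d - 1) = g • p 1
      · obtain ⟨h2, h3⟩ := hcyc
        refine lift (d - 2) (by omega) (ih (d - 2) (by omega) (p 1)
          (no_fix symm equi deg (by rw [← p0]; exact hp 0 (by omega)) hy)
          (fun j => p (j + 1)) rfl ?_ ?_)
        · show p (d - 2 + 1) = g • p 1
          rw [show d - 2 + 1 = d - 1 by omega, h3]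
        · intro j hj
          exact hp (j + 1) (by omega)
      · -- the translates of the walk are everything
        have hprev : R (p 0) (g⁻¹ • p (d - 1)) := by
          have h1 := hp (d - 1) (by omega)
          rw [show d - 1 + 1 = d by omega, pd, ← p0] at h1
          have h2 := equi g⁻¹ (symm h1)
          rwa [inv_smul_smul] at h2
        have hclosed : ∀ i < d, ∀ w, R (p i) w → ∃ j < d, ∃ h : G, h • p j = w := by
          intro i hi w hw
          have hnext : R (p i) (p (i + 1)) := hp i hi
          have hn : ∃ j < d, ∃ h : G, h • p j = p (i + 1) := by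
            by_cases h : i + 1 < d
            · exact ⟨i + 1, h, 1, one_smul _ _⟩
            · refine ⟨0, by omega, g, ?_⟩
              rw [show i + 1 = d by omega, pd, p0]
          by_cases h0 : i = 0
          · subst h0
            have hne : g⁻¹ • p (d - 1) ≠ p (0 + 1) := by
              intro h
              have h4 : p (d - 1) = g • p 1 := by
                rw [← h, smul_inv_smul]
              by_cases h2 : 2 ≤ d
              · exact hcyc ⟨h2, h4⟩
              · have h5 : d = 1 := by omega
                subst h5
                refine hy 2 (by omega) ?_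
                rw [pd] at h4
                rw [pow_two, mul_smul, ← h4]
                exact p0
            rcases deg hw hprev hnext with h | h | h
            · exact ⟨d - 1, by omega, g⁻¹, h.symm⟩
            · rw [h]
              exact hn
            · exact absurd h hne
          · have hpr : R (p i) (p (i - 1)) := by
              have := hp (i - 1) (by omega)
              rw [show i - 1 + 1 = i by omega] at this
              exact symm this
            rcases deg hw hpr hnext with h | h | h
            · exact ⟨i - 1, by omega, 1, by rw [one_smul, h]⟩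
            · rw [h]
              exact hn
            · exact absurd h (hbt i (by omega) hi)
        refine ⟨fun i => p i, fun z => ?_⟩
        have key : ∃ j < d, ∃ h : G, h • p j = z := by
          have := conn (p 0) z
          induction this with
          | refl => exact ⟨0, by omega, 1, one_smul _ _⟩
          | @tail a b _ hab ih =>
            obtain ⟨j, hj, h, hh⟩ := ih
            have h1 : R (p j) (h⁻¹ • b) := by
              have := equi h⁻¹ hab
              rwa [← hh, inv_smul_smul] at this
            obtain ⟨j', hj', h', hh'⟩ := hclosed j hj _ h1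
            exact ⟨j', hj', h * h', by rw [mul_smul, hh', smul_inv_smul]⟩
        obtain ⟨j, hj, h, hh⟩ := key
        exact ⟨⟨j, hj⟩, h, hh⟩

end Pool.Agent.Work.MP_beb4a5_sp
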