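import Pool.Agent.Work.MP_beb4a5_sp.Graph

set_option autoImplicit false

namespace Pool.Agent.Work.MP_beb4a5_sp

/-- nonzero extremal element of the set `NE` -/
def Ex {V : Type*} [AddCommGroup V] [Module ℝ V] (NE : Set V) (c : V) : Prop :=
  c ≠ 0 ∧ c ∈ NE ∧ ∀ a ∈ NE, ∀ b ∈ NE, a + b = c → ∃ t : ℝ, 0 ≤ t ∧ a = t • c

theorem planar_aux {V : Type*} [AddCommGroup V] [Module ℝ V] (NE : Set V)
    (add_mem : ∀ a ∈ NE, ∀ b ∈ NE, a + b ∈ NE)
    (smul_mem : ∀ t : ℝ, 0 ≤ t → ∀ a ∈ NE, t • a ∈ NE)
    (pointed : ∀ a ∈ NE, -a ∈ NE → a = 0) (x y z : V) (hx : Ex NE x) (hy : Ex NE y)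
    (hz : Ex NE z) (α β : ℝ) (h : z = α • x + β • y) :
    (∃ t : ℝ, 0 < t ∧ z = t • x) ∨ (∃ t : ℝ, 0 < t ∧ z = t • y) ∨ (∃ t : ℝ, 0 < t ∧ y = t • x) := by
  obtain ⟨hx0, hxN, hxe⟩ := hx
  obtain ⟨hy0, hyN, hye⟩ := hy
  obtain ⟨hz0, hzN, hze⟩ := hz
  rcases le_or_gt 0 α with ha | ha
  · rcases le_or_gt 0 β with hb | hb
    · obtain ⟨t, ht, h1⟩ := hze _ (smul_mem α ha x hxN) _ (smul_mem β hb y hyN) h.symm
      rcases ht.eq_or_lt with rfl | ht
      · rw [zero_smul] at h1
        rw [h1, zero_add] at h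
        rcases hb.eq_or_lt with rfl | hb
        · rw [zero_smul] at h
          exact absurd h hz0
        · exact Or.inr (Or.inl ⟨β, hb, h⟩)
      · rcases ha.eq_or_lt with rfl | ha
        · rw [zero_smul] at h1
          rcases smul_eq_zero.1 h1.symm with h2 | h2
          · exact absurd h2 ht.ne'
          · exact absurd h2 hz0
        · refine Or.inl ⟨α / t, div_pos ha ht, ?_⟩
          have h2 : z = t⁻¹ • (t • z) := by rw [smul_smul, inv_mul_cancel₀ ht.ne', one_smul]
          rw [h2, ← h1, smul_smul]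
          congr 1
          rw [div_eq_inv_mul]
    · rcases ha.eq_or_lt with rfl | ha
      · exfalso
        rw [zero_smul, zero_add] at h
        have h1 : -((-β) • y) ∈ NE := by
          have h2 : -((-β) • y) = z := by rw [h, neg_smul, neg_neg]
          rw [h2]
          exact hzN
        have h2 := pointed _ (smul_mem (-β) (by linarith) y hyN) h1
        rcases smul_eq_zero.1 h2 with h3 | h3
        · linarith
        · exact hy0 h3
      · have hsum : (-β / α) • y + (1 / α) • z = x := by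
          rw [h, smul_add, smul_smul, smul_smul, one_div_mul_cancel ha.ne', one_smul]
          have h3 : (-β / α) • y + (1 / α * β) • y = 0 := by
            rw [← add_smul]
            have h4 : -β / α + 1 / α * β = 0 := by ring
            rw [h4, zero_smul]
          rw [add_comm x, ← add_assoc, h3, zero_add]
        have hp : 0 < -β / α := div_pos (by linarith) ha
        obtain ⟨t, ht, h1⟩ := hxe _ (smul_mem _ hp.le y hyN) _
          (smul_mem (1 / α) (by positivity) z hzN) hsum
        rcases ht.eq_or_lt with rfl | ht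
        · rw [zero_smul] at h1
          rcases smul_eq_zero.1 h1 with h3 | h3
          · exact absurd h3 hp.ne'
          · exact absurd h3 hy0
        · refine Or.inr (Or.inr ⟨t / (-β / α), div_pos ht hp, ?_⟩)
          have h2 : y = (-β / α)⁻¹ • ((-β / α) • y) := by
            rw [smul_smul, inv_mul_cancel₀ hp.ne', one_smul]
          conv_lhs => rw [h2]
          rw [h1, smul_smul]
          congr 1
          rw [div_eq_inv_mul t]
  · rcases le_or_gt 0 β with hb | hb
    · rcases hb.eq_or_lt with rfl | hb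
      · exfalso
        rw [zero_smul, add_zero] at h
        have h1 : -((-α) • x) ∈ NE := by
          have h2 : -((-α) • x) = z := by rw [h, neg_smul, neg_neg]
          rw [h2]
          exact hzN
        have h2 := pointed _ (smul_mem (-α) (by linarith) x hxN) h1
        rcases smul_eq_zero.1 h2 with h3 | h3
        · linarith
        · exact hx0 h3
      · have hsum : (-α / β) • x + (1 / β) • z = y := by
          rw [h, smul_add, smul_smul, smul_smul, one_div_mul_cancel hb.ne', one_smul]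
          have h3 : (-α / β) • x + (1 / β * α) • x = 0 := by
            rw [← add_smul]
            have h4 : -α / β + 1 / β * α = 0 := by ring
            rw [h4, zero_smul]
          rw [← add_assoc, h3, zero_add]
        have hp : 0 < -α / β := div_pos (by linarith) hb
        obtain ⟨t, ht, h1⟩ := hye _ (smul_mem _ hp.le x hxN) _
          (smul_mem (1 / β) (by positivity) z hzN) hsum
        rcases ht.eq_or_lt with rfl | ht
        · rw [zero_smul] at h1
          rcases smul_eq_zero.1 h1 with h3 | h3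
          · exact absurd h3 hp.ne'
          · exact absurd h3 hx0
        · refine Or.inr (Or.inr ⟨(-α / β) / t, div_pos hp ht, ?_⟩)
          have h2 : y = t⁻¹ • (t • y) := by rw [smul_smul, inv_mul_cancel₀ ht.ne', one_smul]
          rw [h2, ← h1, smul_smul]
          congr 1
          rw [div_eq_inv_mul (-α / β)]
    · exfalso
      have h1 : -z ∈ NE := by
        have h2 : -z = (-α) • x + (-β) • y := by
          rw [h, neg_add, neg_smul, neg_smul]
        rw [h2]
        exact add_mem _ (smul_mem _ (by linarith) x hxN) _ (smul_mem _ (by linarith) y hyN)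
      exact hz0 (pointed z hzN h1)

theorem planar {V : Type*} [AddCommGroup V] [Module ℝ V] (NE : Set V)
    (add_mem : ∀ a ∈ NE, ∀ b ∈ NE, a + b ∈ NE)
    (smul_mem : ∀ t : ℝ, 0 ≤ t → ∀ a ∈ NE, t • a ∈ NE)
    (pointed : ∀ a ∈ NE, -a ∈ NE → a = 0) (W : Submodule ℝ V) [FiniteDimensional ℝ W]
    (hW : Module.finrank ℝ W ≤ 2) (c : Fin 3 → V)
    (hc : ∀ i, c i ∈ W ∧ c i ≠ 0 ∧ c i ∈ NE ∧
      ∀ a ∈ NE, ∀ b ∈ NE, a + b = c i → ∃ t : ℝ, 0 ≤ t ∧ a = t • c i) :
    ∃ i j, i ≠ j ∧ ∃ t : ℝ, 0 < t ∧ c j = t • c i := by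
  have hE : ∀ i, Ex NE (c i) := fun i => (hc i).2
  have hli : ¬ LinearIndependent ℝ (fun i : Fin 3 => (⟨c i, (hc i).1⟩ : W)) := by
    intro h
    have h1 := h.fintype_card_le_finrank
    simp only [Fintype.card_fin] at h1
    omega
  rw [Fintype.not_linearIndependent_iff] at hli
  obtain ⟨g, hg, i, hi⟩ := hli
  have hs : g 0 • c 0 + g 1 • c 1 + g 2 • c 2 = 0 := by
    have h1 := congrArg (fun w : W => (w : V)) hg
    simpa [Fin.sum_univ_three] using h1
  have key : ∀ (a b d : ℝ) (x y z : V), a • x + b • y + d • z = 0 → d ≠ 0 →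
      z = (-a / d) • x + (-b / d) • y := by
    intro a b d x y z h hd
    have h1 : d • z = -(a • x + b • y) := by
      rw [eq_neg_iff_add_eq_zero, add_comm]
      exact h
    have h2 : z = d⁻¹ • (d • z) := by rw [smul_smul, inv_mul_cancel₀ hd, one_smul]
    rw [h2, h1, neg_add, smul_add, ← neg_smul, ← neg_smul, smul_smul, smul_smul]
    congr 2 <;> ring
  have fin : ∀ i j k : Fin 3, i ≠ j → i ≠ k → j ≠ k → ∀ α β : ℝ, c k = α • c i + β • c j →
      ∃ i j, i ≠ j ∧ ∃ t : ℝ, 0 < t ∧ c j = t • c i := by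
    intro i j k hij hik hjk α β h
    rcases planar_aux NE add_mem smul_mem pointed (c i) (c j) (c k) (hE i) (hE j) (hE k) α β h with
      h1 | h1 | h1
    · exact ⟨i, k, hik, h1⟩
    · exact ⟨j, k, hjk, h1⟩
    · exact ⟨i, j, hij, h1⟩
  fin_cases i
  · have h0 : g 0 ≠ 0 := hi
    have h1 : g 1 • c 1 + g 2 • c 2 + g 0 • c 0 = 0 := by
      rw [← hs]; abel
    exact fin 1 2 0 (by decide) (by decide) (by decide) _ _ (key _ _ _ _ _ _ h1 h0)
  · have h0 : g 1 ≠ 0 := hi
    have h1 : g 0 • c 0 + g 2 • c 2 + g 1 • c 1 = 0 := by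
      rw [← hs]; abel
    exact fin 0 2 1 (by decide) (by decide) (by decide) _ _ (key _ _ _ _ _ _ h1 h0)
  · have h0 : g 2 ≠ 0 := hi
    exact fin 0 1 2 (by decide) (by decide) (by decide) _ _ (key _ _ _ _ _ _ hs h0)

end Pool.Agent.Work.MP_beb4a5_sp
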